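import Pool.Agent.FS.BottSamelson2.Exist

set_option autoImplicit false

namespace FS8e5b3d

open Pool.Agent.Lib.MP_8e5b3d_co Polynomial

variable {B W : Type} [Group W] {M : CoxeterMatrix B} (cs : CoxeterSystem M W)

theorem lt_of_eta {w t : W} (h : eta cs w⁻¹ t ≠ 0) : cs.length (t * w) < cs.length w := by
  obtain ⟨ω, hω, rfl⟩ := cs.exists_isReduced w
  obtain ⟨a, r, b, h1, h2⟩ := exch_of_eta cs ω t h
  have a1 := cs.length_wordProd_le (a ++ b)
  rw [h2, hω.eq, h1]
  simp only [List.length_append, List.length_cons] at a1 ⊢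
  omega

theorem eta_of_lt {w t : W} (ht : cs.IsReflection t) (h : cs.length (t * w) < cs.length w) :
    eta cs w⁻¹ t ≠ 0 := fun h0 => by
  have h4 : eta cs (t * w)⁻¹ t ≠ 0 := by
    rw [mul_inv_rev, ht.inv, eta_mul, eta_self cs ht, mul_inv_cancel_right, h0]
    decide
  have := lt_of_eta cs h4
  rw [← mul_assoc, ht.mul_self, one_mul] at this
  omega

/-- The standard parabolic subgroup. -/
abbrev WJ (J : Set B) : Subgroup W := Subgroup.closure (cs.simple '' J)

theorem wj_simple {J : Set B} {s : B} (h : s ∈ J) : cs.simple s ∈ WJ cs J :=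
  Subgroup.subset_closure ⟨s, h, rfl⟩

theorem wj_prod {J : Set B} {ω : List B} (h : ∀ s ∈ ω, s ∈ J) : cs.wordProd ω ∈ WJ cs J := by
  induction ω with
  | nil => rw [cs.wordProd_nil]; exact one_mem _
  | cons s ω ih =>
    rw [cs.wordProd_cons]
    exact mul_mem (wj_simple cs (h s List.mem_cons_self)) (ih fun a ha => h a (List.mem_cons_of_mem _ ha))

theorem wj_word {J : Set B} {v : W} (h : v ∈ WJ cs J) :
    ∃ ω, cs.IsReduced ω ∧ (∀ s ∈ ω, s ∈ J) ∧ cs.wordProd ω = v := by
  have : ∃ ω : List B, (∀ s ∈ ω, s ∈ J) ∧ cs.wordProd ω = v := by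
    induction h using Subgroup.closure_induction with
    | mem x hx =>
      obtain ⟨s, hs, rfl⟩ := hx
      exact ⟨[s], by simpa using hs, cs.wordProd_singleton s⟩
    | one => exact ⟨[], by simp, cs.wordProd_nil⟩
    | mul x y _ _ hx hy =>
      obtain ⟨a, a1, rfl⟩ := hx
      obtain ⟨b, b1, rfl⟩ := hy
      exact ⟨a ++ b, fun s hs => (List.mem_append.mp hs).elim (a1 s) (b1 s), cs.wordProd_append a b⟩
    | inv x _ hx =>
      obtain ⟨a, a1, rfl⟩ := hx
      exact ⟨a.reverse, fun s hs => a1 s (List.mem_reverse.mp hs), cs.wordProd_reverse a⟩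
  obtain ⟨ω, h1, rfl⟩ := this
  obtain ⟨η, h2, h3, h4⟩ := exists_reduced_sublist cs ω
  exact ⟨η, h3, fun s hs => h1 s (h2.subset hs), h4⟩

/-- Minimal in its coset. -/
def Min (J : Set B) (u : W) : Prop := ∀ v ∈ WJ cs J, cs.length u ≤ cs.length (u * v)

theorem len_min {J : Set B} {u v : W} (hu : Min cs J u) (hv : v ∈ WJ cs J) :
    cs.length (u * v) = cs.length u + cs.length v := by
  obtain ⟨ω, h1, h2, h3⟩ := wj_word cs (inv_mem hv)
  obtain ⟨η, hη, h4⟩ := cs.exists_isReduced u⁻¹
  have hl : η.length = cs.length u := by rw [← hη.eq, ← h4, cs.length_inv]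
  have key : cs.length (cs.wordProd ω * u⁻¹) = ω.length + cs.length u := by
    clear h3
    induction ω with
    | nil => simp
    | cons s ω ih =>
      obtain ⟨k1, k2⟩ := reduced_cons h1
      have k0 := fun a ha => h2 a (List.mem_cons_of_mem _ ha)
      have k3 := ih k1 k0
      rw [cs.wordProd_cons, mul_assoc, List.length_cons]
      rcases cs.length_simple_mul (cs.wordProd ω * u⁻¹) s with h | h
      · omega
      exfalso
      obtain ⟨a, r, b, h6, h7⟩ := strong_exchange cs (ω := ω ++ η) (cs.isReflection_simple s)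
        (by rw [cs.wordProd_append, ← h4]; omega)
      have second : ∀ c, a = ω ++ c → η = c ++ r :: b → False := by
        intro c e1 e2
        rw [e1, List.append_assoc, cs.wordProd_append, cs.wordProd_append ω, ← h4] at h7
        have e3 : cs.wordProd (c ++ b) =
            (u * ((cs.wordProd ω)⁻¹ * cs.simple s * cs.wordProd ω)⁻¹)⁻¹ := by
          apply mul_left_cancel (a := cs.wordProd ω)
          rw [← h7]
          group
        have a1 := cs.length_wordProd_le (c ++ b)
        have a2 := hu _ (inv_mem (mul_mem (mul_mem (inv_mem (wj_prod cs k0))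
          (wj_simple cs (h2 s List.mem_cons_self))) (wj_prod cs k0)))
        rw [e3, cs.length_inv] at a1
        rw [e2] at hl
        simp only [List.length_append, List.length_cons] at a1 hl
        omega
      rcases List.append_eq_append_iff.mp h6 with ⟨c, h8, h9⟩ | ⟨c, h8, h9⟩
      · exact second c h8 h9
      · cases c with
        | nil => exact second [] (by simpa using h8.symm) (by simpa using h9.symm)
        | cons y c =>
          simp only [List.cons_append, List.cons.injEq] at h9
          obtain ⟨rfl, rfl⟩ := h9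
          rw [← List.append_assoc, cs.wordProd_append, cs.wordProd_append (a ++ c),
            ← mul_assoc] at h7
          have h10 := mul_right_cancel h7
          have a1 := cs.length_wordProd_le (a ++ c)
          have a2 := congrArg List.length h8
          have a3 := k1.eq
          rw [← h10] at a1
          simp only [List.length_append, List.length_cons] at a1 a2
          omega
  rw [← cs.length_inv, mul_inv_rev, ← h3, key, ← h1.eq, h3, cs.length_inv, add_comm]

theorem decomp (J : Set B) (w : W) : ∃ u v, Min cs J u ∧ v ∈ WJ cs J ∧ w = u * v := by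
  obtain ⟨v, hv, hmin⟩ := (InvImage.wf (fun v : W => cs.length (w * v)) wellFounded_lt).has_min
    (WJ cs J : Set W) ⟨1, one_mem _⟩
  refine ⟨w * v, v⁻¹, fun y hy => ?_, inv_mem hv, by group⟩
  have := hmin (v * y) (mul_mem hv hy)
  rw [mul_assoc]
  exact not_lt.mp this

theorem min_uniq {J : Set B} {u u' v v' : W} (hu : Min cs J u) (hu' : Min cs J u')
    (hv : v ∈ WJ cs J) (hv' : v' ∈ WJ cs J) (h : u * v = u' * v') : u = u' := by
  have e : u' = u * (v * v'⁻¹) := by rw [← mul_assoc, h]; group
  have e' : u = u' * (v' * v⁻¹) := by rw [← mul_assoc, ← h]; group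
  have a1 := len_min cs hu (mul_mem hv (inv_mem hv'))
  have a2 := len_min cs hu' (mul_mem hv' (inv_mem hv))
  rw [← e] at a1
  rw [← e'] at a2
  rw [e, cs.length_eq_zero_iff.mp (show cs.length (v * v'⁻¹) = 0 by omega), mul_one]

theorem len_top {J : Set B} {z : W} (hz : z ∈ WJ cs J)
    (hm : ∀ v ∈ WJ cs J, cs.length v ≤ cs.length z) {v : W} (hv : v ∈ WJ cs J) :
    cs.length (v * z) + cs.length v = cs.length z := by
  obtain ⟨ω, h1, h2, rfl⟩ := wj_word cs hv
  clear hv
  induction ω with
  | nil => simp
  | cons s ω ih =>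
    obtain ⟨k1, k2⟩ := reduced_cons h1
    have k0 := fun a ha => h2 a (List.mem_cons_of_mem _ ha)
    have k3 := ih k1 k0
    have ht : cs.IsReflection ((cs.wordProd ω)⁻¹ * cs.simple s * (cs.wordProd ω)⁻¹⁻¹) :=
      (cs.isReflection_simple s).conj _
    have a1 := hm _ (mul_mem (mul_mem (mul_mem (inv_mem (wj_prod cs k0))
      (wj_simple cs (h2 s List.mem_cons_self))) (inv_mem (inv_mem (wj_prod cs k0)))) hz)
    have a2 := ht.length_mul_right_ne z
    have a3 := eta_of_lt cs ht (lt_of_le_of_ne a1 a2)
    have a4 : eta cs (cs.wordProd ω)⁻¹ (cs.simple s) = 0 := by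
      by_contra h
      have := lt_of_eta cs h
      omega
    have a5 := lt_of_eta cs (w := cs.wordProd ω * z) (t := cs.simple s)
      (by rwa [mul_inv_rev, eta_mul, a4, zero_add])
    have a6 := cs.length_simple_mul (cs.wordProd ω * z) s
    have a7 := cs.length_simple_mul (cs.wordProd ω) s
    rw [cs.wordProd_cons, mul_assoc]
    omega

section KL

open LaurentPolynomial

theorem ev_ne {p : ℤ[X]} (h : p ≠ 0) : ev p ≠ 0 := fun h0 => h (by
  ext j
  have := congrArg (fun f : ℤ[T;T⁻¹] => f.coeff (2 * j)) h0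
  simp only [ev_apply, coeff_aeval_two] at this
  rw [if_pos (by omega)] at this
  have e : ((2 * (j : ℤ)) / 2).toNat = j := by omega
  rw [e] at this
  simpa using this)

theorem bw_zero {d : W →₀ ℤ[X]} {L : ℕ} (hb : BW cs d L)
    (hd : ∀ u, d u ≠ 0 → (∀ y, d y ≠ 0 → cs.length y ≤ cs.length u) →
      2 * (d u).natDegree + cs.length u + 1 ≤ L) : d = 0 := by
  classical
  by_contra hne
  obtain ⟨u, hu, hmax⟩ := d.support.exists_max_image cs.length (Finsupp.support_nonempty_iff.mpr hne)
  have hdu := Finsupp.mem_support_iff.mp hu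
  have h2 := hd u hdu fun y hy => hmax y (Finsupp.mem_support_iff.mpr hy)
  have h1 : bar cs (evm d) u = invert (evm d u) * T (-2 * (cs.length u : ℤ)) := by
    unfold bar
    rw [Finsupp.sum, Finsupp.finsetSum_apply, Finset.sum_eq_single u]
    · rw [Finsupp.smul_apply, barT_diag, smul_eq_mul]
    · intro x hx hxu
      rw [Finsupp.smul_apply, barT_tri cs x u (hmax x (Finsupp.support_mapRange hx)) hxu.symm,
        smul_zero]
    · intro h
      rw [Finsupp.notMem_support_iff.mp h]
      simp
  rw [mul_comm, hb, Finsupp.smul_apply, smul_eq_mul, evm_apply, ev_apply] at h1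
  apply hdu
  ext j
  by_cases hj : (d u).natDegree < j
  · simpa using Polynomial.coeff_eq_zero_of_natDegree_lt hj
  have := congrArg (fun f : ℤ[T;T⁻¹] => f.coeff (2 * j - 2 * L)) h1
  simp only [coeff_T_mul, invert_apply] at this
  simp only [coeff_aeval_two] at this
  rw [if_pos (by omega), if_pos (by omega)] at this
  have e : ((2 * (j : ℤ) - 2 * L - -2 * (L : ℤ)) / 2).toNat = j := by omega
  rw [e] at this
  rw [this, Polynomial.coeff_zero]
  exact Polynomial.coeff_eq_zero_of_natDegree_lt (by omega)

theorem kl_left {x : W} {P : W →₀ ℤ[X]} (hP : IsKLColumn cs x P) {s : B}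
    (hs : cs.IsLeftDescent x s) : mulT cs X s P = (X : ℤ[X]) • P := by
  have h1 := (bw_iff cs x P).mp hP.2.2.2
  have hs' : cs.length (cs.simple s * x) < cs.length x := hs
  have hd := fun u (hu : P u ≠ 0) => kl_deg cs hP (Finsupp.mem_support_iff.mpr hu)
  rw [← sub_eq_zero]
  have hf : ∀ u, (mulT cs X s P - (X : ℤ[X]) • P) u =
      if cs.length u < cs.length (cs.simple s * u) then X * (P (cs.simple s * u) - P u)
      else P (cs.simple s * u) - P u := by
    intro u
    rw [Finsupp.sub_apply, mulT_apply, Finsupp.smul_apply, smul_eq_mul]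
    split_ifs <;> ring
  refine bw_zero cs (L := cs.length x + 1) ?_ fun u hu hm => ?_
  · have h3 : evm (mulT cs X s P) = mulT cs (T 2) s (evm P) := by
      unfold evm
      rw [mapRange_mulT, ev_X]
    have e : (T (-2 * ((cs.length x + 1 : ℕ) : ℤ)) : ℤ[T;T⁻¹]) =
        T (-2 * (cs.length x : ℤ)) * T (-2) := by
      rw [← T_add]; congr 1; push_cast; ring
    have h2 := T_neg_mul_two
    unfold BW at *
    rw [evm_sub, evm_smul, h3, ev_X, bar_sub, bar_mulT, bar_smul, h1, invert_T, e, map_smul]
    simp only [mulTinv, LinearMap.add_apply, LinearMap.smul_apply, Module.End.one_apply]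
    generalize mulT cs (T 2 : ℤ[T;T⁻¹]) s (evm P) = g
    generalize evm P = h
    generalize (T (-2 * (cs.length x : ℤ)) : ℤ[T;T⁻¹]) = c
    generalize (T (-2) : ℤ[T;T⁻¹]) = p at h2 ⊢
    generalize (T 2 : ℤ[T;T⁻¹]) = r at h2 ⊢
    ext u : 1
    simp only [Finsupp.add_apply, Finsupp.sub_apply, Finsupp.smul_apply, smul_eq_mul]
    linear_combination (c * h u) * h2
  · have a0 := cs.length_simple_mul u s
    by_cases h3 : cs.length u < cs.length (cs.simple s * u)
    · exfalso
      have := hm (cs.simple s * u) (by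
        rw [hf, if_pos h3] at hu
        rw [hf, cs.simple_mul_simple_cancel_left, if_neg (by omega), ← neg_sub, neg_ne_zero]
        exact right_ne_zero_of_mul hu)
      omega
    · rw [hf, if_neg h3] at hu ⊢
      have := natDegree_sub_le (P (cs.simple s * u)) (P u)
      by_cases e1 : P (cs.simple s * u) = 0
      · have := (hd u fun e2 => hu (by rw [e1, e2, sub_self])).2
        rw [e1, zero_sub, natDegree_neg]
        omega
      · have := (hd _ e1).1 (by
          intro e
          rw [← e, cs.simple_mul_simple_cancel_left] at hs'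
          omega)
        by_cases e2 : P u = 0
        · rw [e2, sub_zero]; omega
        · have := (hd u e2).2
          omega

theorem kl_left' {x : W} {P : W →₀ ℤ[X]} (hP : IsKLColumn cs x P) {s : B}
    (hs : cs.IsLeftDescent x s) (u : W) : P (cs.simple s * u) = P u := by
  have key : ∀ u, ¬ cs.length u < cs.length (cs.simple s * u) → P (cs.simple s * u) = P u := by
    intro u h
    have := congrArg (fun f : W →₀ ℤ[X] => f u) (kl_left cs hP hs)
    simp only [mulT_apply, if_neg h, Finsupp.smul_apply, smul_eq_mul] at this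
    linear_combination this
  by_cases h : cs.length u < cs.length (cs.simple s * u)
  · have := key (cs.simple s * u) (by rw [cs.simple_mul_simple_cancel_left]; omega)
    rw [cs.simple_mul_simple_cancel_left] at this
    exact this.symm
  · exact key u h

theorem iv_opi (ω : List B) :
    iv (opi cs ω (Finsupp.single 1 1)) = opi cs ω.reverse (Finsupp.single 1 1) := by
  induction ω with
  | nil => simp [iv_single]
  | cons s ω ih =>
    have e1 : ∀ h : W →₀ ℤ[T;T⁻¹], iv (mulT cs (T 2) s h) = rho cs (T 2) s (iv h) := fun h => by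
      rw [rho_eq]
      congr 2
      ext u : 1
      rw [iv_apply, iv_apply, inv_inv]
    have e2 : rho cs (T 2 : ℤ[T;T⁻¹]) s (Finsupp.single 1 1) =
        mulT cs (T 2) s (Finsupp.single 1 1) := by
      rw [rho_single cs _ s 1 (by simp), mulT_single, if_pos (by simp), one_mul, mul_one]
    have e3 := congrArg (fun f : Module.End ℤ[T;T⁻¹] (W →₀ ℤ[T;T⁻¹]) => f (Finsupp.single 1 1))
      (commute_opi_rho cs ω.reverse s).eq
    simp only [Module.End.mul_apply] at e3
    have e4 : opi cs (ω.reverse ++ [s]) = opi cs ω.reverse * mulTinv cs s := by simp [opi]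
    rw [opi_cons, List.reverse_cons, e4, Module.End.mul_apply, Module.End.mul_apply]
    simp only [mulTinv, LinearMap.add_apply, LinearMap.smul_apply, Module.End.one_apply, map_add,
      map_smul, e1, ih, ← e3, e2]

theorem bar_iv (h : W →₀ ℤ[T;T⁻¹]) : bar cs (iv h) = iv (bar cs h) := by
  induction h using Finsupp.induction_linear with
  | zero => simp
  | add f g hf hg => rw [map_add, bar_add, bar_add, hf, hg, map_add]
  | single u a =>
    obtain ⟨ω, hω, rfl⟩ := cs.exists_isReduced u
    rw [iv_single, bar_single, bar_single, map_smul, barT_of_reduced cs hω, iv_opi,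
      ← cs.wordProd_reverse, barT_of_reduced cs hω.reverse]

theorem bruhat_inv {u x : W} (h : BruhatLE cs u x) : BruhatLE cs u⁻¹ x⁻¹ := by
  induction h with
  | refl => exact Relation.ReflTransGen.refl
  | @tail b c _ hbc ih =>
    obtain ⟨t, ht, rfl, hl⟩ := hbc
    refine ih.tail ⟨b⁻¹ * t * b⁻¹⁻¹, ht.conj _, ?_, by rwa [cs.length_inv, cs.length_inv]⟩
    rw [mul_inv_rev, ht.inv]
    group

theorem kl_inv {x : W} {P : W →₀ ℤ[X]} (hP : IsKLColumn cs x P) :
    IsKLColumn cs x⁻¹ (iv P : W →₀ ℤ[X]) := by
  refine kl_of cs (by rw [iv_apply, inv_inv, hP.1]) (fun u hu => ?_) (fun u hne hu => ?_) ?_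
  · rw [iv_apply] at hu
    have := bruhat_inv cs (by_contra fun h => hu (hP.2.1 _ h))
    rwa [inv_inv] at this
  · rw [iv_apply] at hu ⊢
    have := (kl_deg cs hP (Finsupp.mem_support_iff.mpr hu)).1 fun e => hne (by rw [← e, inv_inv])
    rwa [cs.length_inv, ← cs.length_inv x] at this
  · have h1 := (bw_iff cs x P).mp hP.2.2.2
    have e : evm (iv P : W →₀ ℤ[X]) = iv (evm P) := by
      ext u : 1
      rw [evm_apply, iv_apply, iv_apply, evm_apply]
    unfold BW at *
    rw [e, bar_iv, h1, map_smul, cs.length_inv]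

theorem kl_right {x : W} {P : W →₀ ℤ[X]} (hP : IsKLColumn cs x P) {J : Set B}
    (hJ : ∀ s ∈ J, cs.IsRightDescent x s) (u : W) {v : W} (hv : v ∈ WJ cs J) : P (u * v) = P u := by
  obtain ⟨ω, -, h2, rfl⟩ := wj_word cs hv
  clear hv
  induction ω generalizing u with
  | nil => simp
  | cons s ω ih =>
    rw [cs.wordProd_cons, ← mul_assoc, ih _ fun a ha => h2 a (List.mem_cons_of_mem _ ha)]
    have := kl_left' cs (kl_inv cs hP) (s := s)
      (by rw [cs.isLeftDescent_inv_iff]; exact hJ s (h2 s List.mem_cons_self)) u⁻¹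
    rwa [iv_apply, iv_apply, mul_inv_rev, inv_inv, cs.inv_simple] at this

end KL

end FS8e5b3d
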