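import Pool.Agent.FS.BottSamelson3.P1

set_option autoImplicit false

namespace FS8e5b3d.Par

open Pool.Agent.Lib.MP_8e5b3d_co

open Classical in
/-- Entries of the extension. -/
noncomputable def ent {B K : Type} (M : CoxeterMatrix B) (J : K → Set B) (x y : B ⊕ K) : ℕ :=
  Sum.elim (fun a => Sum.elim (fun b => M a b) (fun m => if a ∈ J m then 2 else 0) y)
    (fun a => Sum.elim (fun b => if b ∈ J a then 2 else 0) (fun b => if a = b then 1 else 0) y) x

/-- New generators `m` commuting with `J m`. -/
noncomputable def ext {B K : Type} (M : CoxeterMatrix B) (J : K → Set B) :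
    CoxeterMatrix (B ⊕ K) where
  M := Matrix.of (ent M J)
  isSymm := by
    refine Matrix.IsSymm.ext fun x y => ?_
    rcases x with a | a <;> rcases y with b | b
    · exact M.symmetric b a
    · rfl
    · rfl
    · by_cases h : a = b
      · rw [h]
      · simp [ent, h, Ne.symm h]
  diagonal := by
    rintro (a | a) <;> simp [ent]
  off_diagonal := by
    rintro (a | a) (b | b) h <;> simp only [ent, Matrix.of_apply, Sum.elim_inl, Sum.elim_inr]
    · exact M.off_diagonal a b fun e => h (by rw [e])
    · split_ifs <;> omega
    · split_ifs <;> omega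
    · rw [if_neg fun e => h (by rw [e])]; omega

variable {B K W W' : Type} [Group W] [Group W'] {M : CoxeterMatrix B} {J : K → Set B}
  (cs : CoxeterSystem M W) (cs' : CoxeterSystem (ext M J) W')

theorem ext_ne (m : K) (y : B ⊕ K) (h : y ≠ .inr m) :
    ext M J (.inr m) y = 0 ∨ (ext M J (.inr m) y = 2 ∧ ∃ a ∈ J m, y = .inl a) := by
  rcases y with b | b
  · by_cases hb : b ∈ J m
    · refine Or.inr ⟨?_, b, hb, rfl⟩
      change ent M J (.inr m) (.inl b) = 2
      simp [ent, hb]
    · left
      change ent M J (.inr m) (.inl b) = 0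
      simp [ent, hb]
  · have : m ≠ b := fun e => h (by rw [e])
    left
    change ent M J (.inr m) (.inr b) = 0
    simp [ent, this]

theorem liftable {G : Type} [Group G] (f : B ⊕ K → G) (h0 : ∀ x, f x * f x = 1)
    (h1 : ∀ a b, (f (.inl a) * f (.inl b)) ^ M a b = 1)
    (h2 : ∀ m, ∀ a ∈ J m, Commute (f (.inr m)) (f (.inl a))) : (ext M J).IsLiftable f := by
  have key : ∀ m y, (f (.inr m) * f y) ^ ext M J (.inr m) y = 1 ∧
      (f y * f (.inr m)) ^ ext M J (.inr m) y = 1 := by
    intro m y
    by_cases e : y = .inr m
    · rw [e, (ext M J).diagonal, pow_one]; exact ⟨h0 _, h0 _⟩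
    · rcases ext_ne (M := M) (J := J) m y e with h | ⟨h, a, ha, rfl⟩
      · rw [h, pow_zero, pow_zero]; exact ⟨rfl, rfl⟩
      · rw [h, ← (h2 m a ha).eq, (h2 m a ha).mul_pow, sq, sq, h0, h0, one_mul]; exact ⟨rfl, rfl⟩
  rintro (a | a) (b | b)
  · exact h1 a b
  · rw [(ext M J).symmetric]; exact (key b _).2
  · exact (key a _).1
  · exact (key a _).1

theorem comm_blk {m : K} {a : B} (ha : a ∈ J m) :
    Commute (cs'.simple (.inr m)) (cs'.simple (.inl a)) := by
  have h := cs'.simple_mul_simple_pow (.inr m) (.inl a)
  have e : ext M J (.inr m) (.inl a) = 2 := by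
    change ent M J (.inr m) (.inl a) = 2
    simp [ent, ha]
  rw [e, sq, mul_eq_one_iff_eq_inv, mul_inv_rev, cs'.inv_simple, cs'.inv_simple] at h
  exact h

/-- The inclusion. -/
noncomputable def inc : W →* W' :=
  cs.lift ⟨fun i => cs'.simple (.inl i), fun i j => cs'.simple_mul_simple_pow (.inl i) (.inl j)⟩

theorem inc_simple (i : B) : inc cs cs' (cs.simple i) = cs'.simple (.inl i) := by simp [inc]

/-- The retraction. -/
noncomputable def ret : W' →* W :=
  cs'.lift ⟨Sum.elim cs.simple fun _ => 1, liftable _ (by rintro (a | a) <;> simp)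
    cs.simple_mul_simple_pow fun _ _ _ => Commute.one_left _⟩

theorem ret_simple (x : B ⊕ K) : ret cs cs' (cs'.simple x) = Sum.elim cs.simple (fun _ => 1) x := by
  simp [ret]

theorem inc_wordProd (ω : List B) :
    inc cs cs' (cs.wordProd ω) = cs'.wordProd (ω.map .inl) := by
  induction ω with
  | nil => simp
  | cons s ω ih => rw [cs.wordProd_cons, map_mul, inc_simple, ih, List.map_cons, cs'.wordProd_cons]

theorem ret_inc (u : W) : ret cs cs' (inc cs cs' u) = u := by
  induction u using cs.simple_induction_left with
  | one => simp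
  | mul_simple_left w i ih => rw [map_mul, map_mul, ih, inc_simple, ret_simple]; rfl

theorem len_inc (u : W) : cs'.length (inc cs cs' u) = cs.length u := by
  refine le_antisymm (length_map_le cs cs' _ (fun i => by rw [inc_simple]; simp) u) ?_
  have := length_map_le cs' cs (ret cs cs') (by
    rintro (a | a) <;> rw [ret_simple] <;> simp) (inc cs cs' u)
  rwa [ret_inc] at this

theorem reduced_map {ω : List B} (h : cs.IsReduced ω) : cs'.IsReduced (ω.map .inl) := by
  unfold CoxeterSystem.IsReduced
  rw [← inc_wordProd cs cs', len_inc, List.length_map]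
  exact h

open Classical in
/-- Killing one new generator. -/
noncomputable def kill (m : K) : W' →* W' :=
  cs'.lift ⟨fun x => if x = .inr m then 1 else cs'.simple x, liftable _
    (fun x => by split_ifs <;> simp)
    (fun a b => by
      simp only [reduceCtorEq, if_false]
      exact cs'.simple_mul_simple_pow (.inl a) (.inl b))
    fun k a ha => by
      by_cases e : k = m
      · simp [e]
      · simpa [e] using comm_blk cs' ha⟩

theorem kill_self (m : K) : kill cs' m (cs'.simple (.inr m)) = 1 := by simp [kill]

theorem kill_ne (m : K) {x : B ⊕ K} (h : x ≠ .inr m) : kill cs' m (cs'.simple x) = cs'.simple x := by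
  simp [kill, h]

theorem kill_wordProd (m : K) {η : List (B ⊕ K)} (h : .inr m ∉ η) :
    kill cs' m (cs'.wordProd η) = cs'.wordProd η := by
  induction η with
  | nil => simp
  | cons s η ih =>
    rw [List.mem_cons, not_or] at h
    rw [cs'.wordProd_cons, map_mul, ih h.2, kill_ne cs' m (Ne.symm h.1)]

theorem fresh (m : K) {η : List (B ⊕ K)} (h : .inr m ∉ η) :
    cs'.length (cs'.simple (.inr m) * cs'.wordProd η) = cs'.length (cs'.wordProd η) + 1 := by
  have h1 := length_map_le cs' cs' (kill cs' m) (fun x => by
    by_cases hx : x = .inr m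
    · rw [hx, kill_self]; simp
    · rw [kill_ne cs' m hx]; simp) (cs'.simple (.inr m) * cs'.wordProd η)
  rw [map_mul, kill_self, one_mul, kill_wordProd cs' m h] at h1
  have := cs'.length_simple_mul (cs'.wordProd η) (.inr m)
  omega

/-- The action on cosets with one more point. -/
noncomputable def cos (A : Set B) : W →* Equiv.Perm (Option (W ⧸ WJ cs A)) :=
  (Equiv.Perm.extendDomainHom (Equiv.optionIsSomeEquiv _).symm).comp (MulAction.toPermHom W _)

theorem cos_none (A : Set B) (g : W) : cos cs A g none = none :=
  Equiv.Perm.extendDomain_apply_not_subtype _ _ (by simp)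

theorem cos_some (A : Set B) (g : W) (y : W ⧸ WJ cs A) : cos cs A g (some y) = some (g • y) :=
  Equiv.Perm.extendDomain_apply_image (MulAction.toPerm g) (Equiv.optionIsSomeEquiv _).symm y

theorem fix_base {A : Set B} {g : W} :
    g • ((1 : W) : W ⧸ WJ cs A) = ((1 : W) : W ⧸ WJ cs A) ↔ g ∈ WJ cs A := by
  rw [MulAction.Quotient.smul_coe, smul_eq_mul, mul_one, QuotientGroup.eq, mul_one, inv_mem_iff]

open Classical in
/-- A permutation action that detects the centraliser of a new generator. -/
noncomputable def phi (m : K) : W' →* Equiv.Perm (Option (W ⧸ WJ cs (J m))) :=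
  cs'.lift ⟨Sum.elim (fun a => cos cs (J m) (cs.simple a))
      fun k => if k = m then Equiv.swap none (some ((1 : W) : W ⧸ WJ cs (J m))) else 1,
    liftable _ (by
      rintro (a | a)
      · simp only [Sum.elim_inl]; rw [← map_mul]; simp
      · simp only [Sum.elim_inr]; split_ifs <;> simp)
    (fun a b => by
      simp only [Sum.elim_inl]; rw [← map_mul, ← map_pow, cs.simple_mul_simple_pow, map_one])
    fun k a ha => by
      simp only [Sum.elim_inl, Sum.elim_inr]
      split_ifs with e
      · subst e
        refine (?_ : Commute _ _).symm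
        rw [Commute, SemiconjBy, Equiv.mul_swap_eq_swap_mul, cos_none, cos_some,
          (fix_base cs).mpr (wj_simple cs ha)]
      · exact Commute.one_left _⟩

open Classical in
theorem phi_self (m : K) : phi cs cs' m (cs'.simple (.inr m)) =
    Equiv.swap none (some ((1 : W) : W ⧸ WJ cs (J m))) := by simp [phi]

theorem phi_inc (m : K) (u : W) : phi cs cs' m (inc cs cs' u) = cos cs (J m) u := by
  induction u using cs.simple_induction_left with
  | one => simp
  | mul_simple_left w i ih =>
    rw [map_mul, map_mul, map_mul, ih, inc_simple]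
    simp [phi]

theorem cent {m : K} {t : W}
    (h : inc cs cs' t * cs'.simple (.inr m) = cs'.simple (.inr m) * inc cs cs' t) :
    t ∈ WJ cs (J m) := by
  classical
  have h1 := congrArg (fun g => phi cs cs' m g none) h
  simp only [map_mul, phi_self, phi_inc, Equiv.Perm.mul_apply, Equiv.swap_apply_left, cos_none,
    cos_some, Option.some.injEq] at h1
  exact (fix_base cs).mp h1

/-- Elements that begin with a new generator which does not occur again. -/
def Lead (A : Set B) (v : W') : Prop :=
  ∃ (m : K) (η : List (B ⊕ K)), J m = A ∧ .inr m ∉ η ∧ v = cs'.simple (.inr m) * cs'.wordProd η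

theorem not_lead (A : Set B) (u : W) : ¬ Lead cs' A (inc cs cs' u) := by
  rintro ⟨m, η, -, h1, h2⟩
  obtain ⟨ω, -, rfl⟩ := cs.exists_isReduced u
  have h3 := congrArg (kill cs' m) h2
  rw [map_mul, kill_self, one_mul, kill_wordProd cs' m h1, inc_wordProd,
    kill_wordProd cs' m (by simp), ← inc_wordProd cs cs', h2] at h3
  exact simple_ne_one cs' _ (mul_eq_right.mp h3)

theorem reduced_lead {ω : List B} (hω : cs.IsReduced ω) (m : K) {η : List (B ⊕ K)}
    (hmin : Min cs (J m) (cs.wordProd ω)) (h1 : .inr m ∉ η) (h2 : cs'.IsReduced η) :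
    cs'.IsReduced (ω.map .inl ++ .inr m :: η) := by
  induction ω with
  | nil =>
    unfold CoxeterSystem.IsReduced
    rw [List.map_nil, List.nil_append, cs'.wordProd_cons, fresh cs' m h1, h2.eq, List.length_cons]
  | cons s ω ih =>
    obtain ⟨h3, h4⟩ := reduced_cons hω
    have hmin' : Min cs (J m) (cs.wordProd ω) := fun v hv => by
      have b1 := hmin v hv
      rw [cs.wordProd_cons, mul_assoc] at b1
      have b2 := cs.length_simple_mul (cs.wordProd ω * v) s
      omega
    have h5 := (ih h3 hmin').eq
    unfold CoxeterSystem.IsReduced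
    rw [List.map_cons, List.cons_append, cs'.wordProd_cons, List.length_cons]
    rcases cs'.length_simple_mul (cs'.wordProd (ω.map .inl ++ .inr m :: η)) (.inl s) with h | h
    · omega
    exfalso
    obtain ⟨a, r, b, h6, h7⟩ := strong_exchange cs' (ω := ω.map .inl ++ .inr m :: η)
      (cs'.isReflection_simple (.inl s)) (by omega)
    have hk : kill cs' m (cs'.wordProd (ω.map .inl)) = cs'.wordProd (ω.map .inl) :=
      kill_wordProd cs' m (by simp)
    have hs : kill cs' m (cs'.simple (.inl s)) = cs'.simple (.inl s) := kill_ne cs' m (by simp)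
    rcases List.append_eq_append_iff.mp h6 with ⟨c, h8, h9⟩ | ⟨c, h8, h9⟩
    · cases c with
      | nil =>
        simp only [List.nil_append, List.cons.injEq, List.append_nil] at h8 h9
        obtain ⟨-, rfl⟩ := h9
        subst h8
        rw [cs'.wordProd_append, cs'.wordProd_append, cs'.wordProd_cons] at h7
        have h10 := congrArg (kill cs' m) h7
        simp only [map_mul, hk, hs, kill_self, one_mul] at h10
        exact simple_ne_one cs' _ (mul_eq_right.mp h10)
      | cons y c =>
        simp only [List.cons_append, List.cons.injEq] at h9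
        obtain ⟨rfl, rfl⟩ := h9
        subst h8
        have h11 : (.inr m : B ⊕ K) ∉ c ++ b := fun hm => h1 (by
          simp only [List.mem_append, List.mem_cons] at hm ⊢; tauto)
        rw [List.append_assoc, List.cons_append, cs'.wordProd_append, cs'.wordProd_append,
          cs'.wordProd_cons, cs'.wordProd_cons] at h7
        have h10 := congrArg (kill cs' m) h7
        simp only [map_mul, hk, hs, kill_self, one_mul, kill_wordProd cs' m h1,
          kill_wordProd cs' m h11] at h10
        rw [← inc_wordProd cs cs', ← inc_simple cs cs'] at h7 h10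
        generalize cs'.wordProd (c ++ r :: b) = v at *
        generalize cs'.wordProd (c ++ b) = v' at *
        have h13 : v' = (inc cs cs' (cs.wordProd ω))⁻¹ *
            (inc cs cs' (cs.simple s) * (inc cs cs' (cs.wordProd ω) * v)) := by rw [h10]; group
        have h14 := cent cs cs' (m := m) (t := (cs.wordProd ω)⁻¹ * cs.simple s * cs.wordProd ω) (by
          simp only [map_mul, map_inv]
          apply mul_right_cancel (b := v)
          apply mul_left_cancel (a := inc cs cs' (cs.wordProd ω))
          rw [h13] at h7
          simpa only [mul_assoc, mul_inv_cancel_left] using h7)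
        have h15 := hmin _ (inv_mem h14)
        have e : cs.wordProd (s :: ω) * ((cs.wordProd ω)⁻¹ * cs.simple s * cs.wordProd ω)⁻¹ =
            cs.wordProd ω := by rw [cs.wordProd_cons]; group
        rw [e, cs.wordProd_cons] at h15
        omega
    · cases c with
      | nil =>
        simp only [List.nil_append, List.cons.injEq, List.append_nil] at h8 h9
        obtain ⟨-, rfl⟩ := h9
        subst h8
        rw [cs'.wordProd_append, cs'.wordProd_append, cs'.wordProd_cons] at h7
        have h10 := congrArg (kill cs' m) h7
        simp only [map_mul, hk, hs, kill_self, one_mul] at h10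
        exact simple_ne_one cs' _ (mul_eq_right.mp h10)
      | cons y c =>
        simp only [List.cons_append, List.cons.injEq] at h9
        obtain ⟨rfl, rfl⟩ := h9
        rw [← List.append_assoc, cs'.wordProd_append, cs'.wordProd_append (a ++ c),
          ← mul_assoc] at h7
        have h10 := mul_right_cancel h7
        have a1 := cs'.length_wordProd_le (a ++ c)
        have a2 := congrArg List.length h8
        rw [← h10, ← inc_wordProd cs cs', ← inc_simple cs cs', ← map_mul, len_inc] at a1
        have a3 := h3.eq
        simp only [List.length_append, List.length_cons, List.length_map] at a1 a2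
        omega

theorem len_lead {A : Set B} {u : W} (hu : Min cs A u) {v : W'} (hv : Lead cs' A v) :
    cs'.length (inc cs cs' u * v) = cs.length u + cs'.length v := by
  obtain ⟨m, η, rfl, h1, rfl⟩ := hv
  obtain ⟨ζ, h2, h3, h4⟩ := exists_reduced_sublist cs' η
  obtain ⟨ω, hω, rfl⟩ := cs.exists_isReduced u
  have h5 : (.inr m : B ⊕ K) ∉ ζ := fun h => h1 (h2.subset h)
  have h6 := (reduced_lead cs cs' hω m hu h5 h3).eq
  rw [cs'.wordProd_append, cs'.wordProd_cons, ← inc_wordProd cs cs'] at h6
  rw [← h4, h6, fresh cs' m h5, h3.eq, hω.eq]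
  simp

end FS8e5b3d.Par
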