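import Pool.Agent.FS.BottSamelson3.P2

set_option autoImplicit false

namespace FS8e5b3d.Par

open Pool.Agent.Lib.MP_8e5b3d_co Polynomial

variable {B K W W' : Type} [Group W] [Group W'] {M : CoxeterMatrix B} {J : K → Set B}
  (cs : CoxeterSystem M W) (cs' : CoxeterSystem (ext M J) W')

/-- The minimal coset representative. -/
noncomputable def mr (A : Set B) (x : W) : W := (decomp cs A x).choose

theorem mr_spec (A : Set B) (x : W) :
    ∃ z, Min cs A (mr cs A x) ∧ z ∈ WJ cs A ∧ x = mr cs A x * z := (decomp cs A x).choose_spec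

/-- The data of one factor. -/
structure Dat (B W K : Type) where
  x : W
  P : W →₀ ℤ[X]
  A : Set B
  F : Finset W
  b : List K

/-- Conditions on one factor. -/
structure Good (J : K → Set B) (p : Dat B W K) : Prop where
  kl : IsKLColumn cs p.x p.P
  fin : ∀ v, v ∈ p.F ↔ v ∈ WJ cs p.A
  des : ∀ s ∈ p.A, cs.IsRightDescent p.x s
  typ : ∀ m ∈ p.b, J m = p.A

/-- The Poincare polynomial. -/
noncomputable def pi (F : Finset W) : ℤ[X] := ∑ v ∈ F, X ^ cs.length v

variable {cs} in
omit [Group W'] in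
theorem Good.top {p : Dat B W K} (h : Good cs J p) : p.P (mr cs p.A p.x) = 1 := by
  obtain ⟨z, -, h2, h3⟩ := mr_spec cs p.A p.x
  rw [← kl_right cs h.kl h.des _ h2, ← h3, h.kl.1]

variable {cs} in
omit [Group W'] in
theorem Good.deg {p : Dat B W K} (h : Good cs J p) {u : W} (hu : u ∈ p.P.support)
    (hm : Min cs p.A u) :
    (u ≠ mr cs p.A p.x → 2 * (p.P u).natDegree + cs.length u + 1 ≤ cs.length (mr cs p.A p.x)) ∧
      2 * (p.P u).natDegree + cs.length u ≤ cs.length (mr cs p.A p.x) := by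
  obtain ⟨z, h1, h2, h3⟩ := mr_spec cs p.A p.x
  have e := kl_right cs h.kl h.des u h2
  have a := kl_deg cs h.kl (u := u * z) (by rwa [Finsupp.mem_support_iff, e, ← Finsupp.mem_support_iff])
  have a1 := len_min cs hm h2
  have a2 := len_min cs h1 h2
  rw [← h3] at a2
  rw [e] at a
  refine ⟨fun hne => ?_, by have := a.2; omega⟩
  have := a.1 fun e2 => hne (mul_right_cancel (e2.trans h3))
  omega

variable {cs} in
omit [Group W'] in
theorem Good.pal {p : Dat B W K} (h : Good cs J p) :
    ∃ k : ℕ, cs.length p.x = cs.length (mr cs p.A p.x) + k ∧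
      LaurentPolynomial.invert (ev (pi cs p.F)) =
        LaurentPolynomial.T (-2 * (k : ℤ)) * ev (pi cs p.F) := by
  obtain ⟨z, h1, h2, h3⟩ := mr_spec cs p.A p.x
  have a2 := len_min cs h1 h2
  rw [← h3] at a2
  refine ⟨cs.length z, a2, ?_⟩
  have hm : ∀ v ∈ WJ cs p.A, cs.length v ≤ cs.length z := fun v hv => by
    have := (kl_deg cs h.kl (u := mr cs p.A p.x * v) (by
      rw [Finsupp.mem_support_iff, kl_right cs h.kl h.des _ hv, h.top]; exact one_ne_zero)).2
    have := len_min cs h1 hv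
    omega
  simp only [pi, map_sum, map_pow, ev_X, LaurentPolynomial.T_pow, LaurentPolynomial.invert_T,
    Finset.mul_sum, ← LaurentPolynomial.T_add]
  refine Finset.sum_bij (fun v _ => v * z) (fun v hv => (h.fin _).mpr (mul_mem ((h.fin _).mp hv) h2))
    (fun a _ b _ e => mul_right_cancel e)
    (fun b hb => ⟨b * z⁻¹, (h.fin _).mpr (mul_mem ((h.fin _).mp hb) (inv_mem h2)), by group⟩)
    fun v hv => ?_
  have := len_top cs h2 hm ((h.fin _).mp hv)
  congr 1
  omega

variable {cs} in
omit [Group W'] in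
theorem Good.pi_ne {p : Dat B W K} (h : Good cs J p) : pi cs p.F ≠ 0 := fun h0 => by
  have := congrArg (Polynomial.eval 1) h0
  simp only [pi, eval_finsetSum, eval_pow, eval_X, one_pow, Finset.sum_const, nsmul_eq_mul,
    mul_one, eval_zero, Nat.cast_eq_zero, Finset.card_eq_zero] at this
  have h1 := (h.fin 1).mpr (one_mem _)
  rw [this] at h1
  simp at h1

section Ops

variable {R : Type} [CommRing R] (φ : ℤ[X] →+* R)

/-- The operator of an element of the small Hecke algebra on the large one. -/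
noncomputable def cop (P : W →₀ ℤ[X]) : Module.End R (W' →₀ R) :=
  ∑ u ∈ P.support, φ (P u) • opw cs' (φ X) ((rw0 cs u).map .inl)

/-- The operator of a block of new generators. -/
noncomputable def blk (q : R) (b : List K) : Module.End R (W' →₀ R) :=
  (b.map fun m => 1 + mulT cs' q (.inr m)).prod

theorem blk_cons (q : R) (m : K) (b : List K) (h : W' →₀ R) :
    blk cs' q (m :: b) h = blk cs' q b h + mulT cs' q (.inr m) (blk cs' q b h) := by
  simp [blk]

theorem blk_nil (q : R) (h : W' →₀ R) : blk cs' q [] h = h := by simp [blk]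

theorem cop_apply (P : W →₀ ℤ[X]) (h : W' →₀ R) :
    cop cs cs' φ P h = ∑ u ∈ P.support, φ (P u) • opw cs' (φ X) ((rw0 cs u).map .inl) h := by
  simp [cop, LinearMap.sum_apply]

theorem supp_blk (q : R) (b : List K) {h : W' →₀ R} {η : List (B ⊕ K)} (hh : SuppIn cs' h η) :
    SuppIn cs' (blk cs' q b h) (b.map .inr ++ η) := by
  induction b with
  | nil => rw [blk_nil]; simpa using hh
  | cons m b ih =>
    rw [blk_cons]
    exact supp_add (supp_mono ih (List.sublist_cons_self _ _)) (supp_mulT q _ ih)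

open Classical in
/-- The part on minimal coset representatives. -/
noncomputable def copA (p : Dat B W K) : Module.End R (W' →₀ R) :=
  ∑ u ∈ p.P.support.filter (Min cs p.A), φ (p.P u) • opw cs' (φ X) ((rw0 cs u).map .inl)

open Classical in
theorem copA_apply (p : Dat B W K) (h : W' →₀ R) :
    copA cs cs' φ p h = ∑ u ∈ p.P.support.filter (Min cs p.A),
      φ (p.P u) • opw cs' (φ X) ((rw0 cs u).map .inl) h := by
  simp [copA, LinearMap.sum_apply]

/-- The sum over the parabolic subgroup. -/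
noncomputable def sig (F : Finset W) : Module.End R (W' →₀ R) :=
  ∑ v ∈ F, opw cs' (φ X) ((rw0 cs v).map .inl)

theorem opw_rw0 (q : R) {ω : List B} (h : cs.IsReduced ω) :
    opw cs' q ((rw0 cs (cs.wordProd ω)).map .inl) = opw cs' q (ω.map .inl) :=
  opw_eq cs' q (reduced_map cs cs' (rw0_red cs _)) (reduced_map cs cs' h) (by
    rw [← inc_wordProd cs cs', ← inc_wordProd cs cs', rw0_prod])

theorem opw_rw0_one (q : R) (u : W) :
    opw cs' q ((rw0 cs u).map .inl) (Finsupp.single 1 1) = Finsupp.single (inc cs cs' u) 1 := by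
  rw [opw_one_of_reduced cs' _ (reduced_map cs cs' (rw0_red cs u)), ← inc_wordProd cs cs', rw0_prod]

theorem supp_cop {p : Dat B W K} (hp : Good cs J p) {h : W' →₀ R}
    {η : List (B ⊕ K)} (hh : SuppIn cs' h η) :
    SuppIn cs' (copA cs cs' φ p h) ((rw0 cs (mr cs p.A p.x)).map .inl ++ η) := by
  classical
  intro v hv
  rw [copA_apply, Finsupp.finsetSum_apply] at hv
  obtain ⟨u, hu, h1⟩ := Finset.exists_ne_zero_of_sum_ne_zero hv
  obtain ⟨hu, hm⟩ := Finset.mem_filter.mp hu
  have h2 : BruhatLE cs u p.x := by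
    by_contra hn
    exact Finsupp.mem_support_iff.mp hu (hp.kl.2.1 u hn)
  obtain ⟨z, -, z2, z3⟩ := mr_spec cs p.A p.x
  obtain ⟨ω, -, o2, o3⟩ := wj_word cs z2
  obtain ⟨ξ, h3, h4⟩ := sublist_of_bruhat cs h2 (rw0 cs (mr cs p.A p.x) ++ ω)
    (by rw [cs.wordProd_append, rw0_prod, o3, ← z3])
  obtain ⟨ζ, h5, h6, h7⟩ := exists_reduced_sublist cs ξ
  obtain ⟨ζ1, ζ2, rfl, k1, k2⟩ := List.sublist_append_iff.mp (h5.trans h3)
  have a1 := hm _ (inv_mem (wj_prod cs fun s hs => o2 s (k2.subset hs)))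
  have a2 := h6.eq
  have a3 := cs.length_wordProd_le ζ1
  rw [← h4, ← h7, a2, cs.wordProd_append, mul_inv_cancel_right, List.length_append] at a1
  obtain rfl : ζ2 = [] := List.length_eq_zero_iff.mp (by omega)
  rw [List.append_nil] at h6 h7
  rw [← h4, ← h7, opw_rw0 cs cs' _ h6, Finsupp.smul_apply, smul_eq_mul] at h1
  exact supp_mono (supp_opw (φ X) (ζ1.map .inl) hh)
    ((k1.map _).append_right η) v (right_ne_zero_of_mul h1)

theorem cop_comm (P : W →₀ ℤ[X]) (r : B ⊕ K) : Commute (cop cs cs' φ P) (rho cs' (φ X) r) :=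
  Commute.sum_left _ _ _ fun _ _ => (commute_opw_rho cs' _ _ r).smul_left _

theorem cop_fact {p : Dat B W K} (hp : Good cs J p) :
    cop cs cs' φ p.P = copA cs cs' φ p * sig cs cs' φ p.F := by
  classical
  refine op_ext cs' (φ X) (cop_comm cs cs' φ _) (fun r => Commute.mul_left
    (Commute.sum_left _ _ _ fun _ _ => (commute_opw_rho cs' _ _ r).smul_left _)
    (Commute.sum_left _ _ _ fun _ _ => commute_opw_rho cs' _ _ r)) ?_
  rw [Module.End.mul_apply, cop_apply, copA_apply, sig, LinearMap.sum_apply]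
  simp only [map_sum, Finset.smul_sum]
  rw [← Finset.sum_product']
  symm
  refine Finset.sum_bij (fun a _ => a.1 * a.2) (fun a ha => ?_) (fun a ha b hb e => ?_)
    (fun y hy => ?_) fun a ha => ?_
  · obtain ⟨h1, h2⟩ := Finset.mem_product.mp ha
    rw [Finsupp.mem_support_iff, kl_right cs hp.kl hp.des _ ((hp.fin _).mp h2)]
    exact Finsupp.mem_support_iff.mp (Finset.mem_filter.mp h1).1
  · obtain ⟨h1, h2⟩ := Finset.mem_product.mp ha
    obtain ⟨h3, h4⟩ := Finset.mem_product.mp hb
    have e1 := min_uniq cs (Finset.mem_filter.mp h1).2 (Finset.mem_filter.mp h3).2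
      ((hp.fin _).mp h2) ((hp.fin _).mp h4) e
    exact Prod.ext e1 (mul_left_cancel (e1 ▸ e))
  · obtain ⟨u, v, h1, h2, rfl⟩ := decomp cs p.A y
    refine ⟨(u, v), Finset.mem_product.mpr ⟨Finset.mem_filter.mpr ⟨?_, h1⟩, (hp.fin _).mpr h2⟩, rfl⟩
    rwa [Finsupp.mem_support_iff, kl_right cs hp.kl hp.des _ h2, ← Finsupp.mem_support_iff] at hy
  · obtain ⟨h1, h2⟩ := Finset.mem_product.mp ha
    have e : cs.wordProd (rw0 cs a.1 ++ rw0 cs a.2) = a.1 * a.2 := by
      rw [cs.wordProd_append, rw0_prod, rw0_prod]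
    have hr : cs.IsReduced (rw0 cs a.1 ++ rw0 cs a.2) := by
      unfold CoxeterSystem.IsReduced
      rw [e, len_min cs (Finset.mem_filter.mp h1).2 ((hp.fin _).mp h2), List.length_append,
        rw0_len, rw0_len]
    rw [kl_right cs hp.kl hp.des _ ((hp.fin _).mp h2), ← Module.End.mul_apply, ← opw_append,
      ← List.map_append, ← opw_rw0 cs cs' _ hr, e]

theorem lam_mulT (q : R) (s : B) (h : W →₀ R) :
    Finsupp.lmapDomain _ R (inc cs cs') (mulT cs q s h) =
      mulT cs' q (.inl s) (Finsupp.lmapDomain _ R (inc cs cs') h) := by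
  induction h using Finsupp.induction_linear with
  | zero => simp
  | add f g hf hg => simp only [map_add, hf, hg]
  | single u a =>
    rw [mulT_single, Finsupp.lmapDomain_apply _ _ _ (Finsupp.single u a), Finsupp.mapDomain_single,
      mulT_single, ← inc_simple cs cs', ← map_mul, len_inc, len_inc]
    split_ifs
    · rw [Finsupp.lmapDomain_apply, Finsupp.mapDomain_single]
    · rw [map_add, map_smul, map_smul, Finsupp.lmapDomain_apply, Finsupp.lmapDomain_apply,
        Finsupp.mapDomain_single, Finsupp.mapDomain_single]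

theorem cop_left {x : W} {P : W →₀ ℤ[X]} (hP : IsKLColumn cs x P) {s : B}
    (hs : cs.IsLeftDescent x s) :
    mulT cs' (φ X) (.inl s) * cop cs cs' φ P = φ X • cop cs cs' φ P := by
  refine op_ext cs' (φ X) (fun r => (commute_rho cs' _ _ r).mul_left (cop_comm cs cs' φ P r))
    (fun r => (cop_comm cs cs' φ P r).smul_left _) ?_
  have e : cop cs cs' φ P (Finsupp.single 1 1) =
      Finsupp.lmapDomain _ R (inc cs cs') (Finsupp.mapRange φ (map_zero φ) P) := by
    rw [cop_apply, Finsupp.lmapDomain_apply, Finsupp.mapDomain,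
      Finsupp.sum_mapRange_index (by simp), Finsupp.sum]
    refine Finset.sum_congr rfl fun u _ => ?_
    rw [opw_rw0_one, Finsupp.smul_single, smul_eq_mul, mul_one]
  rw [Module.End.mul_apply, LinearMap.smul_apply, e, ← lam_mulT, ← mapRange_mulT,
    kl_left cs hP hs, ← map_smul]
  congr 1
  ext u : 1
  simp

theorem comm_mulT (q : R) {m : K} {a : B} (ha : a ∈ J m) :
    Commute (mulT cs' q (.inl a)) (mulT cs' q (.inr m)) := by
  have h1 := fresh cs' m (η := [.inl a]) (by simp)
  rw [cs'.wordProd_singleton, cs'.length_simple] at h1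
  have e : cs'.wordProd [.inl a, .inr m] = cs'.wordProd [.inr m, .inl a] := by
    simp only [cs'.wordProd_cons, cs'.wordProd_nil, mul_one, (comm_blk cs' ha).eq]
  have h2 : cs'.IsReduced [.inr m, .inl a] := by
    unfold CoxeterSystem.IsReduced
    rw [cs'.wordProd_cons, cs'.wordProd_singleton, h1]
    rfl
  have := opw_eq cs' q (ω := [.inl a, .inr m]) (by
    unfold CoxeterSystem.IsReduced
    rw [e, h2.eq]
    rfl) h2 e
  simp only [opw_cons, opw_nil, mul_one] at this
  exact this

theorem sig_blk {p : Dat B W K} (hp : Good cs J p) :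
    Commute (sig cs cs' φ p.F) (blk cs' (φ X) p.b) := by
  refine Commute.sum_left _ _ _ fun v hv => ?_
  obtain ⟨ω, h1, h2, rfl⟩ := wj_word cs ((hp.fin _).mp hv)
  rw [opw_rw0 cs cs' _ h1]
  refine Commute.list_prod_left _ _ fun y hy => Commute.list_prod_right _ _ fun z hz => ?_
  obtain ⟨t, ht, rfl⟩ := List.mem_map.mp hy
  obtain ⟨a, ha, rfl⟩ := List.mem_map.mp ht
  obtain ⟨m, hm, rfl⟩ := List.mem_map.mp hz
  exact (Commute.one_right _).add_right (comm_mulT cs' _ (by rw [hp.typ m hm]; exact h2 a ha))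

theorem sig_apply {p : Dat B W K} (hp : Good cs J p) {E : W' →₀ R}
    (hE : ∀ s ∈ p.A, mulT cs' (φ X) (.inl s) E = φ X • E) :
    sig cs cs' φ p.F E = φ (pi cs p.F) • E := by
  rw [sig, LinearMap.sum_apply, pi, map_sum, Finset.sum_smul]
  refine Finset.sum_congr rfl fun v hv => ?_
  obtain ⟨ω, h1, h2, rfl⟩ := wj_word cs ((hp.fin _).mp hv)
  rw [opw_rw0 cs cs' _ h1, h1.eq, map_pow]
  clear h1 hv
  induction ω with
  | nil => simp
  | cons s ω ih =>
    rw [List.map_cons, opw_cons, Module.End.mul_apply,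
      ih fun a ha => h2 a (List.mem_cons_of_mem _ ha), map_smul, hE s (h2 s List.mem_cons_self),
      smul_smul, List.length_cons, pow_succ]

theorem fresh_up {m : K} {h : W' →₀ R} {η : List (B ⊕ K)} (hh : SuppIn cs' h η)
    (hm : .inr m ∉ η) (y : W') (hy : h y ≠ 0) :
    cs'.length (cs'.simple (.inr m) * y) = 1 + cs'.length y := by
  obtain ⟨a, h1, rfl⟩ := hh y hy
  rw [fresh cs' m fun h2 => hm (h1.subset h2), add_comm]

theorem not_mem_blk {m : K} {b : List K} {η : List (B ⊕ K)} (h1 : m ∉ b) (h2 : .inr m ∉ η) :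
    (.inr m : B ⊕ K) ∉ b.map .inr ++ η := by
  simp [h1, h2]

theorem lead_blk (q : R) {A : Set B} (b : List K) (hA : ∀ m ∈ b, J m = A) (hb : b.Nodup) {h : W' →₀ R} {η : List (B ⊕ K)}
    (hh : SuppIn cs' h η) (hm : ∀ m ∈ b, .inr m ∉ η) (v : W')
    (hv : (blk cs' q b h - h) v ≠ 0) : Lead cs' A v := by
  induction b with
  | nil => rw [blk_nil] at hv; simp at hv
  | cons m b ih =>
    obtain ⟨h1, h2⟩ := List.nodup_cons.mp hb
    by_cases h3 : (blk cs' q b h - h) v = 0
    · have h4 := not_mem_blk h1 (hm m List.mem_cons_self)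
      rw [blk_cons, add_sub_right_comm, Finsupp.add_apply, h3, zero_add, mulT_up q _
        fun y hy => by have := fresh_up cs' (supp_blk cs' q b hh) h4 y hy; omega] at hv
      obtain ⟨a, h5, h6⟩ := supp_blk cs' q b hh _ hv
      exact ⟨m, a, hA m List.mem_cons_self, fun h7 => h4 (h5.subset h7), by rw [h6, cs'.simple_mul_simple_cancel_left]⟩
    · exact ih (fun k hk => hA k (List.mem_cons_of_mem _ hk)) h2
        (fun k hk => hm k (List.mem_cons_of_mem _ hk)) h3

theorem opw_inc (q : R) (ω : List B) {g : W' →₀ R} {g0 : W →₀ R}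
    (hg : ∀ u, g (inc cs cs' u) = g0 u) (u : W) :
    opw cs' q (ω.map .inl) g (inc cs cs' u) = opw cs q ω g0 u := by
  induction ω generalizing u with
  | nil => simpa using hg u
  | cons s ω ih =>
    rw [List.map_cons, opw_cons, opw_cons, Module.End.mul_apply, Module.End.mul_apply, mulT_apply,
      mulT_apply, ← inc_simple cs cs', ← map_mul, len_inc, len_inc, ih, ih]

end Ops

theorem bc_blk (b : List K) (hb : b.Nodup) {h : W' →₀ ℤ[X]} {η : List (B ⊕ K)}
    (hh : SuppIn cs' h η) (hm : ∀ m ∈ b, .inr m ∉ η) {c N : ℕ} (hc : Bc cs' h c N) :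
    Bc cs' (blk cs' X b h) c (N + b.length) := by
  induction b with
  | nil => rw [blk_nil]; simpa using hc
  | cons m b ih =>
    obtain ⟨h1, h2⟩ := List.nodup_cons.mp hb
    have h3 := ih h2 (fun k hk => hm k (List.mem_cons_of_mem _ hk))
    have h4 := not_mem_blk h1 (hm m List.mem_cons_self)
    have h5 := h3.shift [.inr m] fun y hy => by
      rw [cs'.wordProd_singleton]
      exact fresh_up cs' (supp_blk cs' X b hh) h4 y hy
    rw [opw_cons, opw_nil, mul_one] at h5
    rw [blk_cons]
    exact (h3.mono (by simp)).add (h5.mono (by simp only [List.length_cons, List.length_nil]; omega))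

theorem top_blk (b : List K) (hb : b.Nodup) {η : List (B ⊕ K)} (hη : cs'.IsReduced η)
    (hm : ∀ m ∈ b, .inr m ∉ η) :
    cs'.IsReduced (b.map .inr ++ η) ∧
    Bc cs' (blk cs' X b (Finsupp.single (cs'.wordProd η) 1) -
      Finsupp.single (cs'.wordProd (b.map .inr ++ η)) 1) 1 (η.length + b.length) := by
  induction b with
  | nil =>
    refine ⟨by simpa using hη, ?_⟩
    rw [blk_nil]
    simpa using Bc.zero _ _
  | cons m b ih =>
    obtain ⟨h1, h2⟩ := List.nodup_cons.mp hb
    have hm' := fun k hk => hm k (List.mem_cons_of_mem _ hk)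
    obtain ⟨h3, h6⟩ := ih h2 hm'
    have h4 := not_mem_blk h1 (hm m List.mem_cons_self)
    have h7 := fresh cs' m h4
    refine ⟨?_, ?_⟩
    · unfold CoxeterSystem.IsReduced
      rw [List.map_cons, List.cons_append, cs'.wordProd_cons, h7, h3.eq, List.length_cons]
    have hs := supp_sub (supp_blk cs' (X : ℤ[X]) b (supp_single η)) (supp_single (b.map .inr ++ η))
    have h5 := h6.shift [.inr m] fun y hy => by
      rw [cs'.wordProd_singleton]
      exact fresh_up cs' hs h4 y hy
    rw [opw_cons, opw_nil, mul_one, map_sub, mulT_single, if_pos (by omega)] at h5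
    have h8 := bc_blk cs' b h2 (supp_single η) hm' (Bc.single (cs'.wordProd η))
    rw [hη.eq] at h8
    rw [blk_cons, add_sub_assoc, List.map_cons, List.cons_append, cs'.wordProd_cons]
    exact (h8.mono (by simp only [List.length_cons]; omega)).add
      (h5.mono (by simp only [List.length_cons, List.length_nil]; omega))

theorem bc_cop {p : Dat B W K} (hP : Good cs J p) {h : W' →₀ ℤ[X]} {c N : ℕ}
    (hc : Bc cs' h c N) : Bc cs' (copA cs cs' (RingHom.id _) p h) c (N + 2 * cs.length (mr cs p.A p.x)) := by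
  classical
  rw [copA_apply]
  refine Bc.sum _ _ fun u hu => (((hc.opw _).smul _).mono ?_)
  have := (hP.deg (Finset.mem_filter.mp hu).1 (Finset.mem_filter.mp hu).2).2
  simp only [List.length_map, rw0_len, RingHom.id_apply]
  omega

theorem bc_term {A : Set B} {u : W} (hu : Min cs A u) (p : ℤ[X]) {h : W' →₀ ℤ[X]} {c N : ℕ} (hc : Bc cs' h c N)
    (hl : ∀ v, h v ≠ 0 → Lead cs' A v) :
    Bc cs' (p • opw cs' X ((rw0 cs u).map .inl) h) c (N + cs.length u + 2 * p.natDegree) := by
  have := (hc.shift ((rw0 cs u).map .inl) fun v hv => by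
    rw [← inc_wordProd cs cs', rw0_prod, len_lead cs cs' hu (hl v hv), List.length_map,
      rw0_len]).smul p
  rwa [List.length_map, rw0_len] at this

theorem bc_cop_lead {p : Dat B W K} (hP : Good cs J p) {h : W' →₀ ℤ[X]} {c N : ℕ}
    (hc : Bc cs' h c N) (hl : ∀ v, h v ≠ 0 → Lead cs' p.A v) :
    Bc cs' (copA cs cs' (RingHom.id _) p h) c (N + cs.length (mr cs p.A p.x)) := by
  classical
  rw [copA_apply]
  refine Bc.sum _ _ fun u hu => ((bc_term cs cs' (Finset.mem_filter.mp hu).2 _ hc hl).mono ?_)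
  have := (hP.deg (Finset.mem_filter.mp hu).1 (Finset.mem_filter.mp hu).2).2
  simp only [RingHom.id_apply]
  omega

theorem top_cop {p : Dat B W K} (hP : Good cs J p) {η : List (B ⊕ K)}
    (hη : cs'.IsReduced η) (hl : Lead cs' p.A (cs'.wordProd η)) :
    cs'.IsReduced ((rw0 cs (mr cs p.A p.x)).map .inl ++ η) ∧
    Bc cs' (copA cs cs' (RingHom.id _) p (Finsupp.single (cs'.wordProd η) 1) -
      Finsupp.single (cs'.wordProd ((rw0 cs (mr cs p.A p.x)).map .inl ++ η)) 1) 1 (η.length + cs.length (mr cs p.A p.x)) := by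
  classical
  obtain ⟨-, hmin, -⟩ := mr_spec cs p.A p.x
  have h1 : cs'.IsReduced ((rw0 cs (mr cs p.A p.x)).map .inl ++ η) := by
    unfold CoxeterSystem.IsReduced
    rw [cs'.wordProd_append, ← inc_wordProd cs cs', rw0_prod, len_lead cs cs' hmin hl, hη.eq]
    simp [rw0_len]
  refine ⟨h1, ?_⟩
  have hx : mr cs p.A p.x ∈ p.P.support.filter (Min cs p.A) := Finset.mem_filter.mpr
    ⟨by rw [Finsupp.mem_support_iff, hP.top]; exact one_ne_zero, hmin⟩
  rw [copA_apply, ← Finset.add_sum_erase _ _ hx, RingHom.id_apply, RingHom.id_apply, hP.top, one_smul,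
    ← opw_one_of_reduced cs' X h1, opw_append, Module.End.mul_apply, opw_one_of_reduced cs' X hη,
    add_sub_cancel_left]
  refine Bc.sum _ _ fun u hu => ((bc_term cs cs'
    (Finset.mem_filter.mp (Finset.mem_of_mem_erase hu)).2 _ (Bc.single _) fun v hv => ?_).mono ?_)
  · by_cases e : v = cs'.wordProd η
    · rwa [e]
    · exact absurd (Finsupp.single_eq_of_ne e) hv
  · have := (hP.deg (Finset.mem_filter.mp (Finset.mem_of_mem_erase hu)).1
      (Finset.mem_filter.mp (Finset.mem_of_mem_erase hu)).2).1 (Finset.ne_of_mem_erase hu)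
    simp only [RingHom.id_apply, hη.eq]
    omega

end FS8e5b3d.Par
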