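import Pool.Agent.FS.BottSamelson3.P3

set_option autoImplicit false

namespace FS8e5b3d.Par

open Pool.Agent.Lib.MP_8e5b3d_co Polynomial

variable {B K W W' : Type} [Group W] [Group W'] {M : CoxeterMatrix B} {J : K → Set B}
  (cs : CoxeterSystem M W) (cs' : CoxeterSystem (ext M J) W')

section BarInv

open LaurentPolynomial

theorem lam_opi (ω : List B) (h : W →₀ ℤ[T;T⁻¹]) :
    Finsupp.lmapDomain _ ℤ[T;T⁻¹] (inc cs cs') (opi cs ω h) =
      opi cs' (ω.map .inl) (Finsupp.lmapDomain _ ℤ[T;T⁻¹] (inc cs cs') h) := by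
  induction ω with
  | nil => simp
  | cons s ω ih =>
    rw [List.map_cons, opi_cons, opi_cons, Module.End.mul_apply, Module.End.mul_apply, ← ih]
    simp only [mulTinv, LinearMap.add_apply, LinearMap.smul_apply, Module.End.one_apply, map_add,
      map_smul, lam_mulT]

theorem bi_cop {x : W} {P : W →₀ ℤ[X]} (hP : IsKLColumn cs x P) :
    BI cs' (cop cs cs' ev P) (cs.length x) := by
  have key : (∑ u ∈ P.support, invert (ev (P u)) • opi cs' ((rw0 cs u).map .inl)) =
      (T (-2 * (cs.length x : ℤ)) : ℤ[T;T⁻¹]) • cop cs cs' ev P := by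
    refine op_ext cs' (T 2) (fun r => ?_) (fun r => ?_) ?_
    · exact Commute.sum_left _ _ _ fun u _ => (commute_opi_rho cs' _ r).smul_left _
    · refine Commute.smul_left ?_ _
      unfold cop
      rw [ev_X]
      exact Commute.sum_left _ _ _ fun u _ => (commute_opw_rho cs' _ _ r).smul_left _
    · have h1 := congrArg (Finsupp.lmapDomain _ ℤ[T;T⁻¹] (inc cs cs')) (kl_bar cs hP)
      rw [map_smul, map_sum, map_sum] at h1
      rw [LinearMap.smul_apply, cop_apply, LinearMap.sum_apply]
      convert h1 using 2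
      · rw [LinearMap.smul_apply, map_smul, barT_eq, lam_opi, Finsupp.lmapDomain_apply,
          Finsupp.mapDomain_single, map_one]
        rfl
      · refine Finset.sum_congr rfl fun u _ => ?_
        rw [map_smul, Finsupp.lmapDomain_apply, Finsupp.mapDomain_single,
          opw_one_of_reduced cs' _ (reduced_map cs cs' (rw0_red cs u)), ← inc_wordProd cs cs',
          rw0_prod]
  intro h
  rw [← LinearMap.smul_apply, ← key, cop_apply, bar_sum, LinearMap.sum_apply]
  refine Finset.sum_congr rfl fun u _ => ?_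
  rw [bar_smul, ev_X, bar_opw, LinearMap.smul_apply]

theorem bi_blk (b : List K) : BI cs' (blk cs' (T 2) b) b.length := by
  induction b with
  | nil => simpa [blk] using BI.one
  | cons m b ih =>
    have := (bi_gen cs' (.inr m)).mul ih
    rw [add_comm 1 b.length] at this
    exact this

end BarInv

/-- The total operator. -/
noncomputable def tot {R : Type} [CommRing R] (φ : ℤ[X] →+* R) (l : List (Dat B W K)) :
    Module.End R (W' →₀ R) :=
  (l.map fun p => copA cs cs' φ p * blk cs' (φ X) p.b).prod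

theorem tot_cons {R : Type} [CommRing R] (φ : ℤ[X] →+* R) (p : Dat B W K) (l : List (Dat B W K))
    (h : W' →₀ R) :
    tot cs cs' φ (p :: l) h = copA cs cs' φ p (blk cs' (φ X) p.b (tot cs cs' φ l h)) := by
  simp [tot]

theorem tot_nil {R : Type} [CommRing R] (φ : ℤ[X] →+* R) (h : W' →₀ R) :
    tot cs cs' φ ([] : List (Dat B W K)) h = h := by simp [tot]

/-- The full word. -/
noncomputable def wd (l : List (Dat B W K)) : List (B ⊕ K) :=
  l.flatMap fun p => (rw0 cs (mr cs p.A p.x)).map .inl ++ p.b.map .inr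

theorem wd_cons (p : Dat B W K) (l : List (Dat B W K)) :
    wd cs (p :: l) = (rw0 cs (mr cs p.A p.x)).map .inl ++ (p.b.map .inr ++ wd cs l) := by
  simp [wd]

theorem wd_len (p : Dat B W K) (l : List (Dat B W K)) :
    (wd cs (p :: l)).length = cs.length (mr cs p.A p.x) + (p.b.length + (wd cs l).length) := by
  simp [wd_cons, rw0_len]

theorem mem_wd {l : List (Dat B W K)} {m : K} (h : (.inr m : B ⊕ K) ∈ wd cs l) :
    m ∈ l.flatMap fun p => p.b := by
  simpa [wd] using h

theorem map_tot (l : List (Dat B W K)) (h : W' →₀ ℤ[X]) :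
    Finsupp.mapRange ev (map_zero ev) (tot cs cs' (RingHom.id _) l h) =
      tot cs cs' ev l (Finsupp.mapRange ev (map_zero ev) h) := by
  induction l with
  | nil => rw [tot_nil, tot_nil]
  | cons p l ih =>
    rw [tot_cons, tot_cons, ← ih]
    generalize tot cs cs' (RingHom.id _) l h = g
    have h1 : Finsupp.mapRange ev (map_zero ev) (blk cs' X p.b g) =
        blk cs' (ev X) p.b (Finsupp.mapRange ev (map_zero ev) g) := by
      induction p.b with
      | nil => rw [blk_nil, blk_nil]
      | cons m b ih2 =>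
        rw [blk_cons, blk_cons, Finsupp.mapRange_add (map_add ev), mapRange_mulT, ih2]
    rw [← h1, RingHom.id_apply]
    generalize blk cs' X p.b g = g'
    ext v : 1
    rw [Finsupp.mapRange_apply, copA_apply, copA_apply, Finsupp.finsetSum_apply,
      Finsupp.finsetSum_apply, map_sum]
    refine Finset.sum_congr rfl fun u _ => ?_
    rw [Finsupp.smul_apply, Finsupp.smul_apply, smul_eq_mul, smul_eq_mul, map_mul, ← mapRange_opw,
      Finsupp.mapRange_apply]
    rfl

theorem supp_tot (l : List (Dat B W K)) (hl : ∀ p ∈ l, Good cs J p) :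
    SuppIn cs' (tot cs cs' (RingHom.id _) l (Finsupp.single 1 1)) (wd cs l) := by
  induction l with
  | nil =>
    rw [tot_nil]
    simpa [wd] using supp_single (cs := cs') (R := ℤ[X]) []
  | cons p l ih =>
    rw [tot_cons, wd_cons]
    exact supp_cop cs cs' _ (hl p List.mem_cons_self)
      (supp_blk cs' _ _ (ih fun a ha => hl a (List.mem_cons_of_mem _ ha)))

theorem split_nodup {p : Dat B W K} {l : List (Dat B W K)}
    (h : ((p :: l).flatMap fun p => p.b).Nodup) :
    p.b.Nodup ∧ (l.flatMap fun p => p.b).Nodup ∧ ∀ m ∈ p.b, (.inr m : B ⊕ K) ∉ wd cs l := by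
  rw [List.flatMap_cons, List.nodup_append] at h
  exact ⟨h.1, h.2.1, fun m hm h2 => h.2.2 m hm m (mem_wd cs h2) rfl⟩

/-- The chain condition. -/
def Ch (A : Set B) (l : List (Dat B W K)) : Prop :=
  (∀ s ∈ A, ∃ p ∈ l.head?, cs.IsLeftDescent p.x s)

/-- All chain conditions. -/
def Chs (l : List (Dat B W K)) : Prop := ∀ a p b, l = a ++ p :: b → Ch cs p.A b

omit [Group W'] in
theorem Chs.tail {p : Dat B W K} {l : List (Dat B W K)} (h : Chs cs (p :: l)) : Chs cs l :=
  fun a q b e => h (p :: a) q b (by rw [e]; rfl)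

theorem tot_pi {R : Type} [CommRing R] [IsDomain R] (φ : ℤ[X] →+* R) (hφ : ∀ p, p ≠ 0 → φ p ≠ 0)
    (l : List (Dat B W K)) (p : Dat B W K) (hl : ∀ a ∈ p :: l, Good cs J a) (hc : Chs cs (p :: l)) :
    φ (pi cs p.F) • tot cs cs' φ (p :: l) (Finsupp.single 1 1) =
      cop cs cs' φ p.P (blk cs' (φ X) p.b (tot cs cs' φ l (Finsupp.single 1 1))) := by
  have step : ∀ (p : Dat B W K) (E : W' →₀ R), Good cs J p →
      (∀ s ∈ p.A, mulT cs' (φ X) (.inl s) E = φ X • E) →
      φ (pi cs p.F) • copA cs cs' φ p (blk cs' (φ X) p.b E) =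
        cop cs cs' φ p.P (blk cs' (φ X) p.b E) := by
    intro p E hp hE
    rw [cop_fact cs cs' φ hp, Module.End.mul_apply, ← Module.End.mul_apply (sig cs cs' φ p.F),
      (sig_blk cs cs' φ hp).eq, Module.End.mul_apply, sig_apply cs cs' φ hp hE, map_smul, map_smul]
  induction l generalizing p with
  | nil =>
    rw [tot_cons]
    refine step p _ (hl p List.mem_cons_self) fun s hs => ?_
    obtain ⟨_, h, _⟩ := hc [] p [] rfl s hs
    simp at h
  | cons p' l ih =>
    rw [tot_cons]
    refine step p _ (hl p List.mem_cons_self) fun s hs => ?_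
    obtain ⟨a, h, hd⟩ := hc [] p (p' :: l) rfl s hs
    obtain rfl : p' = a := by simpa using h
    have hl' := fun a ha => hl a (List.mem_cons_of_mem _ ha)
    have g := hl' p' List.mem_cons_self
    have e := ih p' hl' (hc.tail cs)
    refine smul_right_injective _ (hφ _ g.pi_ne) ?_
    simp only
    rw [← map_smul, smul_comm, e, ← Module.End.mul_apply, cop_left cs cs' φ g.kl hd,
      LinearMap.smul_apply]

theorem bar_tot (l : List (Dat B W K)) (hl : ∀ p ∈ l, Good cs J p) (hc : Chs cs l) :
    bar cs' (tot cs cs' ev l (Finsupp.single 1 1)) =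
      (LaurentPolynomial.T (-2 * ((wd cs l).length : ℤ)) : LaurentPolynomial ℤ) •
        tot cs cs' ev l (Finsupp.single 1 1) := by
  induction l with
  | nil => rw [tot_nil, bar_one]; simp [wd]
  | cons p l ih =>
    have g := hl p List.mem_cons_self
    have e := tot_pi cs cs' ev (fun _ => ev_ne) l p hl hc
    obtain ⟨k, k1, k2⟩ := g.pal
    have h := congrArg (bar cs') e
    rw [bar_smul, bi_cop cs cs' g.kl, ev_X, bi_blk,
      ih (fun a ha => hl a (List.mem_cons_of_mem _ ha)) (hc.tail cs), map_smul, map_smul, map_smul,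
      ← ev_X, ← e, k2] at h
    generalize tot cs cs' ev (p :: l) (Finsupp.single 1 1) = E at *
    refine smul_right_injective _ (mul_ne_zero (LaurentPolynomial.isUnit_T (-2 * (k : ℤ))).ne_zero
      (ev_ne g.pi_ne)) ?_
    simp only
    rw [h, wd_len, k1]
    simp only [smul_smul]
    congr 1
    have aux : ∀ (a b c d e : ℤ) (y : LaurentPolynomial ℤ), a + b + c = d + e →
        LaurentPolynomial.T a * (LaurentPolynomial.T b * (LaurentPolynomial.T c * y)) =
          LaurentPolynomial.T d * y * LaurentPolynomial.T e := by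
      intro a b c d e y h
      rw [mul_right_comm, ← mul_assoc, ← mul_assoc, ← LaurentPolynomial.T_add,
        ← LaurentPolynomial.T_add, ← LaurentPolynomial.T_add, h]
    refine aux _ _ _ _ _ _ ?_
    push_cast
    ring

theorem trace_tot (l : List (Dat B W K)) (hl : ∀ p ∈ l, Good cs J p) (hc : Chs cs l)
    (hn : (l.flatMap fun p => p.b).Nodup) (u : W) :
    (l.map fun p => pi cs p.F).prod *
      tot cs cs' (RingHom.id _) l (Finsupp.single 1 1) (inc cs cs' u) =
      (l.map fun p => p.P.sum fun y a => a • opw cs X (rw0 cs y)).prod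
        (Finsupp.single 1 1) u := by
  induction l generalizing u with
  | nil =>
    rw [tot_nil, List.map_nil, List.map_nil, List.prod_nil, List.prod_nil, Module.End.one_apply,
      one_mul]
    by_cases h : u = 1
    · rw [h, map_one]; simp
    · rw [Finsupp.single_eq_of_ne h, Finsupp.single_eq_of_ne]
      intro e
      apply h
      rw [← ret_inc cs cs' u, e, map_one]
  | cons p l ih =>
    obtain ⟨h1, h2, h3⟩ := split_nodup cs hn
    have hl' := fun a ha => hl a (List.mem_cons_of_mem _ ha)
    have e := tot_pi cs cs' (RingHom.id _) (fun _ h => h) l p hl hc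
    rw [List.map_cons, List.prod_cons, mul_comm (pi cs p.F), mul_assoc, ← smul_eq_mul (pi cs p.F),
      ← Finsupp.smul_apply, ← RingHom.id_apply (pi cs p.F), e, ← smul_eq_mul, ← Finsupp.smul_apply,
      ← map_smul, List.map_cons, List.prod_cons, Module.End.mul_apply, cop_apply, Finsupp.sum,
      LinearMap.sum_apply, Finsupp.finsetSum_apply, Finsupp.finsetSum_apply]
    refine Finset.sum_congr rfl fun y _ => ?_
    rw [LinearMap.smul_apply, Finsupp.smul_apply, Finsupp.smul_apply, RingHom.id_apply,
      RingHom.id_apply]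
    congr 1
    refine opw_inc cs cs' X _ (fun v => ?_) u
    rw [← ih hl' (hc.tail cs) h2 v, Finsupp.smul_apply, smul_eq_mul]
    congr 1
    rw [← sub_eq_zero, ← Finsupp.sub_apply]
    by_contra h0
    exact not_lead cs cs' _ v (lead_blk cs' X p.b (hl p List.mem_cons_self).typ h1
      (supp_tot cs cs' l hl') h3 _ h0)

theorem inv_tot (L : ℕ) (hL0 : 0 < L) (l : List (Dat B W K))
    (hl : ∀ p ∈ l, Good cs J p)
    (hn : (l.flatMap fun p => p.b).Nodup) (hL : ∀ p ∈ l, L ≤ p.b.length) :
    cs'.IsReduced (wd cs l) ∧ ∃ F G : W' →₀ ℤ[X],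
      tot cs cs' (RingHom.id _) l (Finsupp.single 1 1) =
        Finsupp.single (cs'.wordProd (wd cs l)) 1 + F + G ∧
      SuppIn cs' F (wd cs l) ∧ SuppIn cs' G (wd cs l) ∧ Bc cs' F 1 (wd cs l).length ∧
      Bc cs' G L ((wd cs l).length + (l.map fun p => cs.length (mr cs p.A p.x)).sum) := by
  induction l with
  | nil =>
    refine ⟨by simp [wd, CoxeterSystem.IsReduced], 0, 0, by simp [tot, wd], ?_, ?_,
      Bc.zero _ _, Bc.zero _ _⟩ <;> exact fun u hu => absurd rfl hu
  | cons p l ih =>
    obtain ⟨h1, h2, h3⟩ := split_nodup cs hn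
    have hl' := fun a ha => hl a (List.mem_cons_of_mem _ ha)
    have hP := hl p List.mem_cons_self
    have hb := hL p List.mem_cons_self
    obtain ⟨hr, F, G, e, sF, sG, bF, bG⟩ := ih hl' h2 fun a ha => hL a (List.mem_cons_of_mem _ ha)
    obtain ⟨hr1, b1⟩ := top_blk cs' p.b h1 hr h3
    have hlead : Lead cs' p.A (cs'.wordProd (p.b.map .inr ++ wd cs l)) := by
      obtain ⟨m, b, hb'⟩ := List.exists_cons_of_length_pos (l := p.b) (by omega)
      have ht := hP.typ
      rw [hb'] at h1 h3 ht ⊢
      exact ⟨m, _, ht m List.mem_cons_self, not_mem_blk (List.nodup_cons.mp h1).1 (h3 m List.mem_cons_self), by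
        rw [List.map_cons, List.cons_append, cs'.wordProd_cons]⟩
    obtain ⟨hr2, b2⟩ := top_cop cs cs' hP hr1 hlead
    have s0 := supp_single (cs := cs') (R := ℤ[X]) (wd cs l)
    have b0 : Bc cs' (Finsupp.single (cs'.wordProd (wd cs l)) 1) 0 (wd cs l).length := by
      have := Bc.single (cs := cs') (cs'.wordProd (wd cs l))
      rwa [hr.eq] at this
    have sub1 : (wd cs l).Sublist (p.b.map .inr ++ wd cs l) := List.sublist_append_right _ _
    rw [wd_len, wd_cons, tot_cons, e, RingHom.id_apply, List.map_cons, List.sum_cons]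
    refine ⟨hr2, ?_⟩
    generalize hw : Finsupp.single (cs'.wordProd (wd cs l)) (1 : ℤ[X]) = t0 at *
    have s1 := supp_single (cs := cs') (R := ℤ[X]) (p.b.map .inr ++ wd cs l)
    have l1 : ∀ v, Finsupp.single (cs'.wordProd (p.b.map .inr ++ wd cs l)) (1 : ℤ[X]) v ≠ 0 →
        Lead cs' p.A v := fun v hv => by
      by_cases e : v = cs'.wordProd (p.b.map .inr ++ wd cs l)
      · rwa [e]
      · exact absurd (Finsupp.single_eq_of_ne e) hv
    generalize Finsupp.single (cs'.wordProd (p.b.map .inr ++ wd cs l)) (1 : ℤ[X]) = t1 at *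
    have s2 := supp_single (cs := cs') (R := ℤ[X])
      ((rw0 cs (mr cs p.A p.x)).map .inl ++ (p.b.map .inr ++ wd cs l))
    generalize Finsupp.single
      (cs'.wordProd ((rw0 cs (mr cs p.A p.x)).map .inl ++ (p.b.map .inr ++ wd cs l))) (1 : ℤ[X]) = t2 at *
    have sK : ∀ h : W' →₀ ℤ[X], SuppIn cs' h (wd cs l) →
        SuppIn cs' (blk cs' X p.b h - h) (p.b.map .inr ++ wd cs l) := fun h hh =>
      supp_sub (supp_blk cs' X p.b hh) (supp_mono hh sub1)
    have bK : ∀ (h : W' →₀ ℤ[X]) (c N : ℕ), SuppIn cs' h (wd cs l) → Bc cs' h c N →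
        Bc cs' (blk cs' X p.b h - h) c (N + p.b.length) := fun h c N hh hc =>
      (bc_blk cs' p.b h1 hh h3 hc).sub (hc.mono (by omega))
    have hlen : (p.b.map (Sum.inr : K → B ⊕ K) ++ wd cs l).length =
      p.b.length + (wd cs l).length := by simp
    refine ⟨(copA cs cs' (RingHom.id _) p t1 - t2) +
        copA cs cs' (RingHom.id _) p (blk cs' X p.b t0 - t0 - t1) +
        copA cs cs' (RingHom.id _) p (blk cs' X p.b F - F),
      copA cs cs' (RingHom.id _) p (t0 + F + G) +
        copA cs cs' (RingHom.id _) p (blk cs' X p.b G - G), ?_, ?_, ?_, ?_, ?_⟩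
    · simp only [map_add, map_sub]
      abel
    · exact supp_add (supp_add (supp_sub (supp_cop cs cs' _ hP s1) s2)
        (supp_cop cs cs' _ hP (supp_sub (sK _ s0) s1))) (supp_cop cs cs' _ hP (sK _ sF))
    · exact supp_add (supp_cop cs cs' _ hP (supp_mono (supp_add (supp_add s0 sF) sG) sub1))
        (supp_cop cs cs' _ hP (sK _ sG))
    · refine Bc.add (Bc.add (b2.mono (by omega)) ?_) ?_
      · refine (bc_cop_lead cs cs' hP (c := 1) (N := (wd cs l).length + p.b.length) ?_
          fun v hv => ?_).mono (by omega)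
        · rw [sub_right_comm]
          exact b1.sub (b0.mono (by omega))
        · by_cases h4 : t1 v = 0
          · rw [Finsupp.sub_apply, h4, sub_zero] at hv
            exact lead_blk cs' X p.b hP.typ h1 s0 h3 v hv
          · exact l1 v h4
      · exact (bc_cop_lead cs cs' hP (bK _ _ _ sF bF) (lead_blk cs' X p.b hP.typ h1 sF h3)).mono (by omega)
    · refine Bc.add ((bc_cop cs cs' hP (c := 0)
        (N := (wd cs l).length + (l.map fun p => cs.length (mr cs p.A p.x)).sum) ?_).mono (by omega)) ?_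
      · exact ((b0.mono (by omega)).add (bF.mono (by omega))).add (bG.mono (by omega))
      · exact (bc_cop cs cs' hP (bK _ _ _ sG bG)).mono (by omega)

theorem exists_column (l : List (Dat B W K)) (hl : ∀ p ∈ l, Good cs J p) (hc : Chs cs l)
    (hn : (l.flatMap fun p => p.b).Nodup)
    (hL : ∀ p ∈ l, (l.map fun p => cs.length (mr cs p.A p.x)).sum + 1 ≤ p.b.length) :
    IsKLColumn cs' (cs'.wordProd (wd cs l))
      (tot cs cs' (RingHom.id _) l (Finsupp.single 1 1)) := by
  obtain ⟨hr, F, G, e, -, -, bF, bG⟩ := inv_tot cs cs' _ (by omega) l hl hn hL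
  have hQ : Bc cs' (F + G) 1 (wd cs l).length := bF.add (bG.mono (by omega))
  have hlen := hr.eq
  rw [add_assoc] at e
  refine ⟨?_, ?_, ?_, ?_⟩
  · have : (F + G) (cs'.wordProd (wd cs l)) = 0 := by
      by_contra h
      have := hQ _ h
      omega
    rw [e, Finsupp.add_apply, this, Finsupp.single_eq_same, add_zero]
  · intro u hu
    by_contra h
    obtain ⟨η, h1, rfl⟩ := supp_tot cs cs' l hl u h
    exact hu (bruhat_of_sublist cs' h1 hr)
  · intro u hu hne
    rw [e, Finsupp.add_apply, Finsupp.single_eq_of_ne hne, zero_add]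
    by_cases h : (F + G) u = 0
    · have := hu.eq_or_lt.resolve_left hne
      rw [h, Polynomial.natDegree_zero]
      omega
    · have := hQ u h
      omega
  · refine ⟨(LaurentPolynomial.T (-(cs'.length (cs'.wordProd (wd cs l)) : ℤ)) :
        LaurentPolynomial ℤ) • tot cs cs' ev l (Finsupp.single 1 1), fun u => ?_, ?_⟩
    · have := map_tot cs cs' l (Finsupp.single 1 1)
      rw [Finsupp.mapRange_single, map_one] at this
      rw [Finsupp.smul_apply, smul_eq_mul, ← this, Finsupp.mapRange_apply, ev_apply]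
    · rw [bar_smul, bar_tot cs cs' l hl hc, LaurentPolynomial.invert_T, smul_smul,
        ← LaurentPolynomial.T_add, hlen]
      congr 2
      ring

omit [Group W'] in
theorem main (C : W → W →₀ ℤ[X]) (hC : ∀ x, IsKLColumn cs x (C x)) (l : List (W × Set B))
    (h1 : ∀ p ∈ l, (WJ cs p.2 : Set W).Finite ∧ ∀ s ∈ p.2, cs.IsRightDescent p.1 s)
    (h2 : ∀ a p b, l = a ++ p :: b → ∀ s ∈ p.2, ∃ p' ∈ b.head?, cs.IsLeftDescent p'.1 s) :
    ∃ (K : Type) (_ : Finite K) (J : K → Set B) (w : (ext M J).Group)
      (P : (ext M J).Group → ℤ[X]), IsKLColumn (ext M J).toCoxeterSystem w P ∧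
      (l.map fun p => ∑ᶠ v ∈ (WJ cs p.2 : Set W), (X : ℤ[X]) ^ cs.length v).prod * P 1 =
        (l.map fun p => (C p.1).sum fun y a => a • opw cs X (rw0 cs y)).prod
          (Finsupp.single 1 1) 1 := by
  let L := (l.map fun p => cs.length (mr cs p.2 p.1)).sum + 1
  let J : Fin l.length × Fin L → Set B := fun k => (l.get k.1).2
  let g : Fin l.length → Dat B W (Fin l.length × Fin L) := fun i =>
    ⟨(l.get i).1, C (l.get i).1, (l.get i).2, (h1 _ (List.get_mem l i)).1.toFinset,
      (List.finRange L).map fun j => (i, j)⟩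
  let d := (List.finRange l.length).map g
  have e : ∀ {α : Type} (f : W × Set B → α), (d.map fun p => f (p.x, p.A)) = l.map f := by
    intro α f
    conv_rhs => rw [← List.map_get_finRange l]
    simp only [d, List.map_map]
    rfl
  have k1 : ∀ p ∈ d, Good cs J p := by
    intro p hp
    obtain ⟨i, _, rfl⟩ := List.mem_map.mp hp
    refine ⟨hC _, fun v => by simp [g], (h1 _ (List.get_mem l i)).2, fun m hm => ?_⟩
    obtain ⟨j, _, rfl⟩ := List.mem_map.mp hm
    rfl
  have k2 : (d.flatMap fun p => p.b).Nodup := by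
    have := (List.nodup_finRange l.length).product (List.nodup_finRange L)
    simp only [d, List.flatMap_map]
    exact this
  have k3 : Chs cs d := by
    intro a p b hd s hs
    have e1 := e id
    rw [hd, List.map_append, List.map_cons, List.map_id] at e1
    obtain ⟨p', h3, h4⟩ := h2 _ _ _ e1.symm s hs
    rw [List.head?_map, Option.mem_map] at h3
    obtain ⟨r, h5, rfl⟩ := h3
    exact ⟨r, h5, h4⟩
  refine ⟨Fin l.length × Fin L, inferInstance, J, _, _,
    exists_column cs (ext M J).toCoxeterSystem d k1 k3 k2 ?_, ?_⟩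
  · intro p hp
    obtain ⟨i, _, rfl⟩ := List.mem_map.mp hp
    rw [e fun p => cs.length (mr cs p.2 p.1)]
    simp [L, g]
  · have := trace_tot cs (ext M J).toCoxeterSystem d k1 k3 k2 1
    rw [map_one] at this
    rw [← e, ← e]
    convert this using 3
    · refine List.map_congr_left fun p hp => ?_
      obtain ⟨i, _, rfl⟩ := List.mem_map.mp hp
      exact finsum_mem_eq_finite_toFinset_sum _ (h1 _ (List.get_mem l i)).1
    · congr 1
      refine List.map_congr_left fun p hp => ?_
      obtain ⟨i, _, rfl⟩ := List.mem_map.mp hp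
      rfl

end FS8e5b3d.Par
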